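import Pool.Agent.P8H99.GO.Stm

set_option autoImplicit false

/-! Package CNT of project GO/OD (helper75) -/

namespace Pool.Agent.P8H75.GO

open Finset Pool.Agent.P8H99.GO
open Pool.Agent.Results.MP_ac85ec_co.FourLevels (IsOrder Lt Covers IsGrade GradedWithLevels a ord)

open Classical in
/-- CNT -/
theorem cnt : S_RNG → S_INJ → S_CNT := by
  intro hR hI k n
  let S : Finset (Σ _ : Fin n → Fin k, Finset (Fin n × Fin n)) :=
    ((univ : Finset (Fin n → Fin k)).filter Function.Surjective).sigma (fun g =>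
      ((univ : Finset (Fin n × Fin n)).filter (fun q => (g q.2 : ℕ) = g q.1 + 1)).powerset)
  have hS : S.card = ∑ g ∈ (univ : Finset (Fin n → Fin k)).filter Function.Surjective,
      2 ^ wt g := by
    rw [card_sigma]
    refine sum_congr rfl fun g _ => ?_
    rw [card_powerset, wt]
  have key : ∀ r : {r : Fin n → Fin n → Prop // GradedWithLevels k r}, ∃ g : Fin n → Fin k,
      Function.Surjective g ∧ ∀ p q, Covers r.1 p q → (g q : ℕ) = g p + 1 := by
    rintro ⟨r, hr, g, hg, hk⟩
    have h1 := hR k n r g hr hg hk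
    have h2 : ∀ p, 1 ≤ g p ∧ g p ≤ k := fun p => by
      have : g p ∈ Set.Icc 1 k := by rw [← h1]; exact ⟨p, rfl⟩
      exact this
    refine ⟨fun p => ⟨g p - 1, by have := h2 p; omega⟩, ?_, ?_⟩
    · intro i
      have h3 : (i : ℕ) + 1 ∈ Set.range g := by
        rw [h1]
        exact ⟨by omega, by omega⟩
      obtain ⟨p, hp⟩ := h3
      refine ⟨p, Fin.ext ?_⟩
      change g p - 1 = i
      omega
    · intro p q hpq
      have h3 := hg.step p q hpq
      have h4 := h2 p
      change g q - 1 = g p - 1 + 1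
      omega
  choose G hG1 hG2 using key
  let Φ : {r : Fin n → Fin n → Prop // GradedWithLevels k r} → {x // x ∈ S} := fun r =>
    ⟨⟨G r, (univ : Finset (Fin n × Fin n)).filter (fun q => Covers r.1 q.1 q.2)⟩, by
      rw [mem_sigma, mem_filter, mem_powerset]
      refine ⟨⟨mem_univ _, hG1 r⟩, fun q hq => ?_⟩
      rw [mem_filter] at hq ⊢
      exact ⟨mem_univ _, hG2 r _ _ hq.2⟩⟩
  have hΦ : Function.Injective Φ := by
    intro r r' h
    have h1 : (univ : Finset (Fin n × Fin n)).filter (fun q => Covers r.1 q.1 q.2) =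
        (univ : Finset (Fin n × Fin n)).filter (fun q => Covers r'.1 q.1 q.2) := by
      have h2 := congrArg (fun x : {x // x ∈ S} => x.1.2) h
      exact h2
    refine Subtype.ext (hI n r.1 r'.1 r.2.1 r'.2.1 fun p q => ?_)
    have h2 := Finset.ext_iff.1 h1 (p, q)
    rw [mem_filter, mem_filter] at h2
    constructor
    · intro h3
      exact (h2.1 ⟨mem_univ _, h3⟩).2
    · intro h3
      exact (h2.2 ⟨mem_univ _, h3⟩).2
  have h1 := Nat.card_le_card_of_injective Φ hΦ
  rw [Nat.card_eq_fintype_card (α := {x // x ∈ S}), Fintype.card_coe, hS] at h1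
  exact h1

end Pool.Agent.P8H75.GO
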